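import Pool.Agent.W823.SFP.Laws

/-!
# Shortest exploding paths in scale-free percolation grow slower than double exponentially

Scale-free percolation on `ℤ^d` with Pareto vertex-weights and exponential edge-weights. For all
`d ≥ 1`, `α > d`, `λ > 0`, `τ > 1` with `γ = α (τ - 1) / d` in `(1, 2)`: almost surely there is a
shortest exploding path from the origin, and for every such path `v` and every `b > 1` one has
`‖v n‖ < exp (b ^ n)` for all sufficiently large `n`.
-/

set_option autoImplicit false

namespace Pool.Agent.Results.MP_c3e920_pr.SlowExplodingPath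

open MeasureTheory ProbabilityTheory Filter Pool.Agent.W823.SFP

theorem result (d : ℕ) (hd : 1 ≤ d) (α lam τ : ℝ) (hα : (d : ℝ) < α) (hlam : 0 < lam)
    (hτ : 1 < τ) (hγ1 : 1 < α * (τ - 1) / d) (hγ2 : α * (τ - 1) / d < 2) :
    -- the vertex-weight law is a probability measure on `[1, ∞)` with `P (W > t) = t ^ (-(τ - 1))`
    (IsProbabilityMeasure (paretoMeasure 1 (τ - 1)) ∧
      paretoMeasure 1 (τ - 1) (Set.Ici 1) = 1 ∧
      ∀ t : ℝ, 1 ≤ t →
        paretoMeasure 1 (τ - 1) (Set.Ioi t) = ENNReal.ofReal (t ^ (-(τ - 1)))) ∧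
    -- the edge-weight law is a probability measure on `[0, ∞)` and satisfies `I (L) < ∞`
    (IsProbabilityMeasure (expMeasure 1) ∧
      expMeasure 1 (Set.Iio 0) = 0 ∧
      IntegrableOn (fun y => quantile (expMeasure 1) (Real.exp (-Real.exp y))) (Set.Ioi 0)) ∧
    -- the joint law is a probability measure
    IsProbabilityMeasure (law d (paretoMeasure 1 (τ - 1)) (expMeasure 1)) ∧
    -- almost surely a shortest exploding path exists and every one grows slowly
    ∀ᵐ ω ∂(law d (paretoMeasure 1 (τ - 1)) (expMeasure 1)),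
      (∃ v, IsShortest α lam ω 0 v) ∧
      ∀ v, IsShortest α lam ω 0 v →
        ∀ b : ℝ, 1 < b → ∀ᶠ n : ℕ in atTop, nrm (v n) < Real.exp (b ^ n) := by
  have h := hyp_pareto_exp d hd α lam τ hα hlam hτ hγ1 hγ2
  have hP : IsProbabilityMeasure (law d (paretoMeasure 1 (τ - 1)) (expMeasure 1)) := by
    have := isProb h
    unfold law
    infer_instance
  refine ⟨⟨h.probW, ?_, fun t ht => pareto_Ioi (by linarith) ht⟩, ⟨h.probL, ?_,
    integrable_quantile⟩, hP, main h⟩
  · rw [pareto_Ici (by linarith) le_rfl, Real.one_rpow, ENNReal.ofReal_one]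
  · have h0 : expMeasure 1 (Set.Iic 0) = 0 := by
      rw [exp_Iic]
      simp
    exact measure_mono_null Set.Iio_subset_Iic_self h0

end Pool.Agent.Results.MP_c3e920_pr.SlowExplodingPath
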